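import Pool.Agent.Helper79_WRA.AsmB

/-!
CC (commutator criterion): definitions and the statements of the modules.

Alperin's weight conjecture in alternating sum form (Q1, all blocks) at `ℓ` is equivalent to a
family of congruences between numbers of solutions of commutator equations.
-/

open scoped BigOperators

noncomputable section

namespace Pool.Agent.Helper98_CC

open Pool.Agent.Helper51_AWC Pool.Agent.Helper79_WRA

/-! ## Definitions -/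

/-- the number of pairs of elements of `H` with commutator `c` -/
def comm2 {G : Type} [Group G] (H : Subgroup G) (c : G) : ℕ :=
  Nat.card {p : G × G // p.1 ∈ H ∧ p.2 ∈ H ∧ p.1 * p.2 * p.1⁻¹ * p.2⁻¹ = c}

/-- the number of solutions of `[x_1,y_1] ... [x_g,y_g] = c` -/
def commg {G : Type} [Group G] (g : ℕ) (c : G) : ℕ :=
  Nat.card {p : Fin g → G × G //
    (List.ofFn fun i => (p i).1 * (p i).2 * (p i).1⁻¹ * (p i).2⁻¹).prod = c}

/-- the chains (finite sets, totally ordered by inclusion, possibly empty) of nontrivial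
`ℓ`-subgroups -/
def pChains (ℓ : ℕ) (G : Type) [Group G] : Set (Finset (Subgroup G)) :=
  {d | (∀ D ∈ d, D ≠ ⊥ ∧ IsPGroup ℓ D) ∧ IsChain (· ≤ ·) (d : Set (Subgroup G))}

/-- the alternating sum over the chains of nontrivial `ℓ`-subgroups of the numbers of pairs with
commutator `c` that normalise the chain -/
def torusSum (ℓ : ℕ) {G : Type} [Group G] (c : G) : ℤ :=
  ∑ᶠ (d : Finset (Subgroup G)) (_ : d ∈ pChains ℓ G), (-1) ^ d.card * (comm2 (stab d) c : ℤ)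

/-- the order of the centraliser of `c` -/
def cz {G : Type} [Group G] (c : G) : ℕ := Nat.card (Subgroup.centralizer {c} : Subgroup G)

/-- the local alternating sum for a label `β` (for `β = labF M χ` it is `|G|` times the
alternating sum of the block of `χ`) -/
def asum (ℓ : ℕ) (M : Ideal (integralClosure ℤ ℂ)) {G : Type} [Group G] [Finite G]
    (β : G → FF M) : ℤ :=
  ∑ d ∈ chainsOn (psub ℓ G) ⊥, (-1) ^ (d.card + 1) * ((Nat.card (stab d) : ℤ) *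
      (({a | a ∈ IrrS (stab d) ∧ labF M a = β}.ncard : ℕ) : ℤ))

/-- the labels of the irreducible characters, i.e. the blocks -/
def Labs (M : Ideal (integralClosure ℤ ℂ)) (G : Type) [Group G] : Set (G → FF M) :=
  {β | ∃ χ ∈ Irr G, β = labF M χ}

/-! ## Counting solutions of commutator equations -/

/-- FROB: the number of pairs with given commutator. -/
def FrobStmt : Prop :=
  ∀ (H : Type) [Group H] [Finite H] (h : H),
    ((Nat.card {p : H × H // p.1 * p.2 * p.1⁻¹ * p.2⁻¹ = h} : ℕ) : ℂ) =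
      (Nat.card H : ℂ) * ∑ᶠ (θ : H → ℂ) (_ : θ ∈ Irr H), θ h / θ 1

/-- GENUS: the number of solutions of `[x_1,y_1] ... [x_g,y_g] = c`. -/
def GenusStmt : Prop :=
  ∀ (G : Type) [Group G] [Finite G] (g : ℕ), 1 ≤ g → ∀ c : G,
    ((commg g c : ℕ) : ℂ) =
      (Nat.card G : ℂ) ^ (2 * g - 1) * ∑ᶠ (χ : G → ℂ) (_ : χ ∈ Irr G), χ c / χ 1 ^ (2 * g - 1)

open Classical in
/-- GRED: the genus `g` count modulo `M`. -/
def GredStmt : Prop :=
  ∀ (ℓ : ℕ) [Fact ℓ.Prime] (M : Ideal (integralClosure ℤ ℂ)) [M.IsMaximal],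
    (ℓ : integralClosure ℤ ℂ) ∈ M → ∀ g : ℕ, 1 < g → ℓ - 1 ∣ 2 * g - 2 →
    ∀ (G : Type) [Group G] [Finite G] (c : G), ∃ n : ℤ, (commg g c : ℤ) = (cz c : ℤ) * n ∧
      (n : FF M) = if opCore ℓ G = ⊥ then ∑ᶠ (χ : G → ℂ) (_ : χ ∈ DZ ℓ M G), labF M χ c else 0

/-! ## Labels -/

/-- IND: linear independence of the labels (Dedekind). -/
def IndStmt : Prop :=
  ∀ (M : Ideal (integralClosure ℤ ℂ)) [M.IsMaximal] (G : Type) [Group G] [Finite G]
    (c : (G → FF M) → FF M), (∀ g : G, ∑ᶠ (β : G → FF M) (_ : β ∈ Labs M G), c β * β g = 0) →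
    ∀ β ∈ Labs M G, c β = 0

/-- LAB: the sum of the commutator counts as a sum over the blocks. -/
def LabIdStmt : Prop :=
  ∀ (ℓ : ℕ) [Fact ℓ.Prime] (M : Ideal (integralClosure ℤ ℂ)) [M.IsMaximal],
    (ℓ : integralClosure ℤ ℂ) ∈ M → ∀ (G : Type) [Group G] [Finite G], opCore ℓ G = ⊥ →
    -- an integer valued function on labels giving the alternating sums
    ∀ S : (G → FF M) → ℤ, (∀ χ ∈ Irr G, S (labF M χ) = altSum ℓ M χ) →
    ∀ c : G, ∃ n : ℤ, torusSum ℓ c = (cz c : ℤ) * n ∧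
      (n : FF M) = ∑ᶠ (β : G → FF M) (_ : β ∈ Labs M G), (S β : FF M) * β c

/-- DZ1: the alternating sum of a block of defect zero is one. -/
def Dz1Stmt : Prop :=
  ∀ (ℓ : ℕ) [Fact ℓ.Prime] (M : Ideal (integralClosure ℤ ℂ)) [M.IsMaximal],
    (ℓ : integralClosure ℤ ℂ) ∈ M → ∀ (G : Type) [Group G] [Finite G], opCore ℓ G = ⊥ →
    ∀ χ ∈ DZ ℓ M G, altSum ℓ M χ = 1

/-- CON: a nontrivial normal `ℓ`-subgroup makes the sum vanish. -/
def ConStmt : Prop :=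
  ∀ (ℓ : ℕ) [Fact ℓ.Prime] (G : Type) [Group G] [Finite G], opCore ℓ G ≠ ⊥ →
    ∀ c : G, torusSum ℓ c = 0

/-! ## The wreath product with the cyclic group of order `ℓ` -/

/-- the cyclic group of order `ℓ`, acting regularly on `ZMod ℓ` -/
abbrev Cl (ℓ : ℕ) : Type := Multiplicative (ZMod ℓ)

instance clAct (ℓ : ℕ) : MulAction (Cl ℓ) (ZMod ℓ) where
  smul a i := Multiplicative.toAdd a + i
  one_smul i := zero_add i
  mul_smul a b i := add_assoc (Multiplicative.toAdd a) (Multiplicative.toAdd b) i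

theorem cl_smul (ℓ : ℕ) (a : Cl ℓ) (i : ZMod ℓ) : a • i = Multiplicative.toAdd a + i := rfl

/-- the wreath product `G wr C_ℓ` -/
abbrev Gam (ℓ : ℕ) (G : Type) : Type := Wreath G (ZMod ℓ) (Cl ℓ)

open Classical in
/-- BOXP: the sum over all families with given labels is a product. -/
def BoxpStmt : Prop :=
  ∀ (ℓ : ℕ) [Fact ℓ.Prime] (M : Ideal (integralClosure ℤ ℂ)) (G Δ : Type) [Group G] [Finite G]
    [Fintype Δ] (β : Δ → G → FF M), opCore ℓ G = ⊥ →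
    ∑ v ∈ chainsOn (boxes ℓ G Δ) (fun _ => ⊥), (-1) ^ (v.card + 1) *
      ∑ α ∈ (charsOf v).filter (fun w => ∀ j, labF M (w j) = β j),
        ∏ j, (Nat.card (colStab v j) : ℤ) = ∏ j, asum ℓ M (β j)

open Classical in
/-- BOXT: the sum over the families stabilised by a transitive group. -/
def BoxtStmt : Prop :=
  ∀ (ℓ : ℕ) [Fact ℓ.Prime] (M : Ideal (integralClosure ℤ ℂ)) (G Δ K : Type) [Group G] [Finite G]
    [Fintype Δ] [Group K] [Finite K] [MulAction K Δ] (j₀ : Δ) (β : G → FF M),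
    (∀ j : Δ, ∃ k : K, k • j₀ = j) → opCore ℓ G = ⊥ →
    (∀ d ∈ chainsOn (psub ℓ G) ⊥, ∀ a ∈ IrrS (stab d), labF M a = β →
      red M ((Nat.card (stab d) : ℂ) / a 1) = 0) →
    (Nat.card G : ℤ) * ∑ v ∈ chainsOn (boxes ℓ G Δ) (fun _ => ⊥), (-1) ^ (v.card + 1) *
      ∑ α ∈ (charsOf v).filter (fun w => ⊤ ≤ topSt K v w ∧ ∀ j, labF M (w j) = β),
        ∏ j, (Nat.card (colStab v j) : ℤ) =
      (Nat.card G : ℤ) ^ Fintype.card Δ * asum ℓ M β

/-- the hypothesis: `χ'` is an irreducible character of `G wr C_ℓ` in the block covering the power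
of the block of `χ`; as a function it is the extension of `χ ⊗ ... ⊗ χ` -/
def Over (ℓ : ℕ) [NeZero ℓ] {G : Type} [Group G] [Finite G] (χ : G → ℂ)
    (χ' : Gam ℓ G → ℂ) : Prop :=
  χ' ∈ Irr (Gam ℓ G) ∧ ∀ Φ : Gam ℓ G → ℂ, (∀ x y, Φ (y * x * y⁻¹) = Φ x) →
    val Φ χ' = val Φ (et (fun _ => χ) (fun _ => (1 : ℂ)))

/-- OFF: the inner sums outside of the base group vanish modulo `M`. -/
def OffStmt : Prop :=
  ∀ (ℓ : ℕ) [Fact ℓ.Prime] (M : Ideal (integralClosure ℤ ℂ)) [M.IsMaximal],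
    (ℓ : integralClosure ℤ ℂ) ∈ M → ∀ (G : Type) [Group G] [Finite G], opCore ℓ G = ⊥ →
    ∀ χ ∈ Irr G, LargeDefect ℓ M χ → ∀ h : Cl ℓ, h ≠ 1 → ∀ Φ : Gam ℓ G → ℂ,
    (∀ x y, Φ (y * x * y⁻¹) = Φ x) → (∀ x, IsIntegral ℤ (Φ x)) →
    Cong M ((∑ᶠ w : ZMod ℓ → G, Φ ⟨w, h⟩ * ex (Cl ℓ) (fun _ => χ) ⟨w, h⟩) /
      ∏ _j : ZMod ℓ, χ 1) 0

/-- GOODA: the block condition for the chains of the base group. -/
def GoodaStmt : Prop :=
  ∀ (ℓ : ℕ) [Fact ℓ.Prime] (M : Ideal (integralClosure ℤ ℂ)) [M.IsMaximal],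
    (ℓ : integralClosure ℤ ℂ) ∈ M → ∀ (G : Type) [Group G] [Finite G], opCore ℓ G = ⊥ →
    ∀ χ ∈ Irr G, LargeDefect ℓ M χ → ∀ χ' : Gam ℓ G → ℂ, Over ℓ χ χ' →
    ∀ v ∈ chainsOn (boxes ℓ G (ZMod ℓ)) (fun _ => ⊥), ∀ α : ZMod ℓ → G → ℂ, IsChars v α →
    ∀ lam ∈ IrrS (topSt (Cl ℓ) v α),
    (Good M (clas (MonoidHom.id (Gam ℓ G))) (fun g => omega (MonoidHom.id _) χ' g)
      (eta v α lam) ↔ ∀ j, labF M (α j) = labF M χ)

/-- the trivial action on a point -/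
instance ptAct (ℓ : ℕ) : MulAction (Cl ℓ) Unit where
  smul _ i := i
  one_smul _ := rfl
  mul_smul _ _ _ := rfl

/-- the diagonal embedding `G wr_pt C_ℓ → G wr C_ℓ` -/
def dia (ℓ : ℕ) (G : Type) [Group G] : Wreath G Unit (Cl ℓ) →* Gam ℓ G where
  toFun x := ⟨fun _ => x.f (), x.s⟩
  map_one' := rfl
  map_mul' _ _ := rfl

/-- EQB: labels of irreducible characters of `G wr C_ℓ` are determined on the base group. -/
def EqbStmt : Prop :=
  ∀ (ℓ : ℕ) [Fact ℓ.Prime] (M : Ideal (integralClosure ℤ ℂ)) [M.IsMaximal],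
    (ℓ : integralClosure ℤ ℂ) ∈ M → ∀ (G : Type) [Group G] [Finite G],
    ∀ χ₁ ∈ Irr (Gam ℓ G), ∀ χ₂ ∈ Irr (Gam ℓ G),
    (∀ y : ZMod ℓ → G, labF M χ₁ (Wreath.base y) = labF M χ₂ (Wreath.base y)) →
    labF M χ₁ = labF M χ₂

/-- GOODB: the block condition for the chains containing the complement. -/
def GoodbStmt : Prop :=
  ∀ (ℓ : ℕ) [Fact ℓ.Prime] (M : Ideal (integralClosure ℤ ℂ)) [M.IsMaximal],
    (ℓ : integralClosure ℤ ℂ) ∈ M → ∀ (G : Type) [Group G] [Finite G], opCore ℓ G = ⊥ →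
    ∀ χ ∈ Irr G, LargeDefect ℓ M χ → ∀ χ' : Gam ℓ G → ℂ, Over ℓ χ χ' →
    ∀ v ∈ chainsOn (boxes ℓ G Unit) (fun _ => ⊥), ∀ α : Unit → G → ℂ, IsChars v α →
    ∀ lam ∈ IrrS (topSt (Cl ℓ) v α),
    (Good M (clas (dia ℓ G)) (fun g => omega (MonoidHom.id _) χ' g) (eta v α lam) ↔
      ∀ g, labF M (α ()) g = labF M χ g ^ ℓ)

/-- WCL: the alternating sum of the block of `G wr C_ℓ` covering the power of the block of `χ`. -/
def WclStmt : Prop :=
  ∀ (ℓ : ℕ) [Fact ℓ.Prime] (M : Ideal (integralClosure ℤ ℂ)) [M.IsMaximal],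
    (ℓ : integralClosure ℤ ℂ) ∈ M → ∀ (G : Type) [Group G] [Finite G], opCore ℓ G = ⊥ →
    ∀ χ ∈ Irr G, LargeDefect ℓ M χ → ∀ χ' : Gam ℓ G → ℂ, Over ℓ χ χ' →
    ∀ s s' : ℤ, asum ℓ M (labF M χ) = (Nat.card G : ℤ) * s →
    asum ℓ M (fun g => labF M χ g ^ ℓ) = (Nat.card G : ℤ) * s' →
    (ℓ : ℤ) * altSum ℓ M χ' = s ^ ℓ + ((ℓ : ℤ) ^ 2 - 1) * s - (ℓ : ℤ) ^ 2 * s'

/-- STEP: the properties of the wreath product used in the final argument. -/
def StepStmt : Prop :=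
  ∀ (ℓ : ℕ) [Fact ℓ.Prime] (M : Ideal (integralClosure ℤ ℂ)) [M.IsMaximal],
    (ℓ : integralClosure ℤ ℂ) ∈ M → ∀ (G : Type) [Group G] [Finite G], opCore ℓ G = ⊥ →
    ∀ χ ∈ Irr G, LargeDefect ℓ M χ →
    -- the Frobenius twist is a block of positive defect or no block at all
    (∃ s' : ℤ, asum ℓ M (fun g => labF M χ g ^ ℓ) = (Nat.card G : ℤ) * s' ∧
      (s' = 0 ∨ ∃ χ₂ ∈ Irr G, LargeDefect ℓ M χ₂ ∧ altSum ℓ M χ₂ = s')) ∧
    ∃ χ' : Gam ℓ G → ℂ, Over ℓ χ χ' ∧ LargeDefect ℓ M χ' ∧ opCore ℓ (Gam ℓ G) = ⊥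

/-! ## The theorem -/

/-- the main theorem: Q1 for all the groups with `O_ℓ(G) = 1` is equivalent to the congruences -/
def MainStmt : Prop :=
  ∀ (ℓ : ℕ) [Fact ℓ.Prime] (M : Ideal (integralClosure ℤ ℂ)) [M.IsMaximal],
    (ℓ : integralClosure ℤ ℂ) ∈ M → ∀ g : ℕ, 1 < g → ℓ - 1 ∣ 2 * g - 2 →
    ((∀ (G : Type) [Group G] [Finite G], opCore ℓ G = ⊥ → Q1For ℓ M G) ↔
      ∀ (G : Type) [Group G] [Finite G] (c : G),
        ((ℓ * cz c : ℕ) : ℤ) ∣ torusSum ℓ c - (commg g c : ℤ))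

end Pool.Agent.Helper98_CC
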