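import Pool.Agent.Helper51_AWC.WrFinal

/-!
Alperin's weight conjecture in alternating-sum form at a prime `ℓ`, for groups with `O_ℓ(G) = 1` :
vanishing of all sums, divisibility of the sums for large groups by one fixed number which is not
a power of `ℓ`, and subpolynomial growth of the sums are equivalent.
-/

open scoped BigOperators

noncomputable section

namespace Pool.Agent.Helper98_CC.Div

open Pool.Agent.Helper51_AWC

/-- `O_ℓ(G) = 1`, `χ` is an irreducible character of `G`, and the defect groups of its block are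
not trivial. -/
def CoreFree (ℓ : ℕ) (M : Ideal (integralClosure ℤ ℂ)) (G : Type) [Group G] (χ : G → ℂ) : Prop :=
  opCore ℓ G = ⊥ ∧ χ ∈ Irr G ∧ LargeDefect ℓ M χ

/-- a stronger form of `CoreFree` for representatives -/
def Strong (ℓ : ℕ) (G : Type) [Group G] (χ : G → ℂ) : Prop :=
  opCore ℓ G = ⊥ ∧ χ ∈ Irr G ∧ ∃ n : ℕ, χ 1 = n ∧ ℓ * n ∣ Nat.card G

theorem altSum_congr {ℓ : ℕ} {M : Ideal (integralClosure ℤ ℂ)} {G : Type} [Group G]
    {χ ψ : G → ℂ}
    (h : ∀ g : G, Cong M (omega (MonoidHom.id G) ψ g) (omega (MonoidHom.id G) χ g)) :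
    altSum ℓ M ψ = altSum ℓ M χ := by
  have : ∀ (H : Subgroup G), IrrBlock M H.subtype ψ = IrrBlock M H.subtype χ := by
    intro H
    ext ϑ
    constructor
    · rintro ⟨h1, h2⟩; exact ⟨h1, fun g => (h2 g).trans (h g)⟩
    · rintro ⟨h1, h2⟩; exact ⟨h1, fun g => (h2 g).trans (h g).symm⟩
  unfold altSum
  simp only [this]

theorem Strong.coreFree {ℓ : ℕ} {M : Ideal (integralClosure ℤ ℂ)} {G : Type} [Group G]
    {χ : G → ℂ} (h : Strong ℓ G χ) : CoreFree ℓ M G χ := by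
  obtain ⟨h1, h2, n, hn, hd⟩ := h
  refine ⟨h1, h2, χ, h2, fun g => Cong.refl _, n, hn, ?_⟩
  rw [h1, Subgroup.card_bot, mul_one]
  exact hd

theorem CoreFree.exists_strong {ℓ : ℕ} {M : Ideal (integralClosure ℤ ℂ)} {G : Type} [Group G]
    {χ : G → ℂ} (h : CoreFree ℓ M G χ) : ∃ ψ, Strong ℓ G ψ ∧ altSum ℓ M ψ = altSum ℓ M χ := by
  obtain ⟨h1, h2, ψ, hψ, hc, n, hn, hd⟩ := h
  refine ⟨ψ, ⟨h1, hψ, n, hn, ?_⟩, altSum_congr hc⟩
  rw [h1, Subgroup.card_bot, mul_one] at hd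
  exact hd

theorem Strong.cong {ℓ : ℕ} {M : Ideal (integralClosure ℤ ℂ)}
    (hℓ : (ℓ : integralClosure ℤ ℂ) ∈ M) {G : Type} [Group G] [Fintype G] {χ : G → ℂ}
    (h : Strong ℓ G χ) : Cong M ((Nat.card G : ℂ) / χ 1) 0 := by
  obtain ⟨_, h2, n, hn, k, hk⟩ := h
  have h0 := irr_one_ne h2
  have h3 : (Nat.card G : ℂ) / χ 1 = ((ℓ * k : ℕ) : ℂ) := by
    rw [div_eq_iff h0, hn, hk]
    push_cast; ring
  rw [h3]
  exact cong_nat_of_dvd hℓ ⟨k, rfl⟩

/-- `s` is the sum of a pair with a group of order `c` -/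
def Val (ℓ : ℕ) (M : Ideal (integralClosure ℤ ℂ)) (s : ℤ) (c : ℕ) : Prop :=
  ∃ (G : Type) (_ : Group G) (_ : Finite G) (χ : G → ℂ), Strong ℓ G χ ∧ altSum ℓ M χ = s ∧
    Nat.card G = c

section closure

variable {ℓ : ℕ} [hp : Fact ℓ.Prime] {M : Ideal (integralClosure ℤ ℂ)} [hM : M.IsPrime]

omit hM in
theorem Val.mul {s t : ℤ} {c d : ℕ} (hs : Val ℓ M s c) (ht : Val ℓ M t d) :
    Val ℓ M (s * t) (c * d) := by
  obtain ⟨G, _, _, χ, ⟨a1, a2, n, hn, a3⟩, rfl, rfl⟩ := hs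
  obtain ⟨H, _, _, ψ, ⟨b1, b2, k, hk, b3⟩, rfl, rfl⟩ := ht
  have := Fintype.ofFinite G
  have := Fintype.ofFinite H
  refine ⟨G × H, inferInstance, inferInstance, prodChar χ ψ,
    ⟨?_, prodChar_mem a2 b2, n * k, ?_, ?_⟩, altSum_prod ℓ M a2 b2, Nat.card_prod _ _⟩
  · rw [opCore_prod, a1, b1, Subgroup.bot_prod_bot]
  · simp [prodChar, hn, hk]
  · rw [Nat.card_prod]
    have h1 : ℓ * (n * k) ∣ (ℓ * n) * (ℓ * k) := ⟨ℓ, by ring⟩
    exact h1.trans (mul_dvd_mul a3 b3)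

omit hM in
theorem Val.pow {s : ℤ} {c : ℕ} (hs : Val ℓ M s c) (n : ℕ) :
    Val ℓ M (s ^ (n + 1)) (c ^ (n + 1)) := by
  induction n with
  | zero => simpa using hs
  | succ n ih =>
    have h1 := ih.mul hs
    rwa [← pow_succ, ← pow_succ] at h1

theorem Val.wr (hℓ : (ℓ : integralClosure ℤ ℂ) ∈ M) {s : ℤ} {c : ℕ} (hs : Val ℓ M s c) (m : ℕ)
    (hm : m.Prime) (hne : m ≠ ℓ) :
    ∃ t : ℤ, (m : ℤ) * t = s ^ m + ((m : ℤ) ^ 2 - 1) * s ∧ Val ℓ M t (c ^ m * m) := by
  have hmf : Fact m.Prime := ⟨hm⟩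
  obtain ⟨G, _, _, χ, hS, rfl, rfl⟩ := hs
  have := Fintype.ofFinite G
  have hX := hS.cong hℓ
  obtain ⟨a1, a2, n, hn, a3⟩ := hS
  refine ⟨altSum ℓ M (extChar χ 1 : Wr m G → ℂ), altSum_wr hℓ hne a1 a2 hX,
    Wr m G, inferInstance, inferInstance, extChar χ 1,
    ⟨opCore_wr hne a1, extChar_mem a2 1, n ^ m, ?_, ?_⟩, rfl, Wr.card_eq⟩
  · rw [extChar_one a2, hn]
    push_cast; rfl
  · rw [Wr.card_eq]
    have h1 : ℓ * n ^ m ∣ (ℓ * n) ^ m := by
      rw [mul_pow]
      exact mul_dvd_mul_right (dvd_pow_self _ hm.ne_zero) _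
    exact h1.trans ((pow_dvd_pow_of_dvd a3 m).trans (Dvd.intro _ rfl))

omit hM in
theorem Val.pos {s : ℤ} {c : ℕ} (hs : Val ℓ M s c) (h0 : s ≠ 0) : 2 ≤ c := by
  obtain ⟨G, _, _, χ, ⟨a1, a2, n, hn, a3⟩, rfl, rfl⟩ := hs
  have hn0 : n ≠ 0 := by
    rintro rfl
    have := irr_one_ne a2
    exact this (by simpa using hn)
  have h1 := Nat.le_of_dvd Nat.card_pos a3
  have h2 := hp.out.two_le
  have h3 : 1 ≤ n := Nat.one_le_iff_ne_zero.2 hn0
  calc 2 ≤ ℓ * 1 := by omega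
    _ ≤ ℓ * n := Nat.mul_le_mul_left _ h3
    _ ≤ _ := h1

end closure

/-- For every prime `ℓ` and every `k` which has a prime divisor different from `ℓ` : all sums
`S(G, B)` with `O_ℓ(G) = 1` and `B` of positive defect vanish if and only if `k` divides
`S(G, B)` for all such `(G, B)` with `|G|` large, and if and only if for every `ε > 0` one has
`S(G, B) ≤ |G|^ε` for all such `(G, B)` with `|G|` large. -/
theorem criterion :
    ∀ ℓ : ℕ, ℓ.Prime → ∀ M : Ideal (integralClosure ℤ ℂ), M.IsMaximal →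
      (ℓ : integralClosure ℤ ℂ) ∈ M → ∀ k : ℕ, (∃ m : ℕ, m.Prime ∧ m ≠ ℓ ∧ m ∣ k) →
      List.TFAE [
        ∀ (G : Type) [Group G] [Finite G] (χ : G → ℂ), CoreFree ℓ M G χ → altSum ℓ M χ = 0,
        ∃ N : ℕ, ∀ (G : Type) [Group G] [Finite G] (χ : G → ℂ),
          CoreFree ℓ M G χ → N ≤ Nat.card G → (k : ℤ) ∣ altSum ℓ M χ,
        ∀ ε : ℝ, 0 < ε → ∃ N : ℕ, ∀ (G : Type) [Group G] [Finite G] (χ : G → ℂ),
          CoreFree ℓ M G χ → N ≤ Nat.card G → (altSum ℓ M χ : ℝ) ≤ (Nat.card G : ℝ) ^ ε] := by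
  intro ℓ hp M hM hℓ k hk
  obtain ⟨m, hm, hne, hmk⟩ := hk
  have hfact : Fact ℓ.Prime := ⟨hp⟩
  have hprime : M.IsPrime := hM.isPrime
  tfae_have 1 → 2 := by
    intro h
    refine ⟨0, fun G _ _ χ hχ _ => ?_⟩
    rw [h G χ hχ]
    exact dvd_zero _
  tfae_have 1 → 3 := by
    intro h ε _
    refine ⟨0, fun G _ _ χ hχ _ => ?_⟩
    rw [h G χ hχ]
    simp only [Int.cast_zero]
    positivity
  tfae_have 2 → 1 := by
    rintro ⟨N, h⟩ G _ _ χ hχ
    by_contra hne0
    obtain ⟨ψ, hψ, hψχ⟩ := hχ.exists_strong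
    rw [← hψχ] at hne0
    -- a large group
    have hv0 : Val ℓ M (altSum ℓ M ψ) (Nat.card G) := ⟨G, inferInstance, inferInstance, ψ, hψ,
      rfl, rfl⟩
    have hc2 := hv0.pos hne0
    have hv1 := hv0.pow N
    have hbig : N ≤ Nat.card G ^ (N + 1) :=
      (Nat.lt_pow_self (by omega : 1 < Nat.card G)).le.trans
        (Nat.pow_le_pow_right (by omega) (Nat.le_succ N))
    have hne1 : altSum ℓ M ψ ^ (N + 1) ≠ 0 := pow_ne_zero _ hne0
    have hdiv : ∀ (s : ℤ) (c : ℕ), Val ℓ M s c → N ≤ c → (m : ℤ) ∣ s := by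
      rintro s c ⟨H, _, _, ϑ, hϑ, rfl, rfl⟩ hc
      exact (Int.natCast_dvd_natCast.2 hmk).trans (h H ϑ hϑ.coreFree hc)
    have hpow : ∀ (n : ℕ) (s : ℤ) (c : ℕ), Val ℓ M s c → N ≤ c → s ≠ 0 → 0 < c →
        (m : ℤ) ^ n ∣ s := by
      intro n
      induction n with
      | zero => intro s c _ _ _ _; simp
      | succ n ih =>
        intro s c hv hc hs hc0
        obtain ⟨t, ht, hvt⟩ := hv.wr hℓ m hm hne
        have hms := hdiv s c hv hc
        have hm1 : 1 ≤ m - 1 := by have := hm.two_le; omega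
        have hfac : (m : ℤ) * t = s * (s ^ (m - 1) + ((m : ℤ) ^ 2 - 1)) := by
          rw [ht]
          have : s ^ m = s * s ^ (m - 1) := by
            rw [← pow_succ']
            congr 1
            have := hm.pos
            omega
          rw [this]; ring
        have hcop : IsCoprime (m : ℤ) (s ^ (m - 1) + ((m : ℤ) ^ 2 - 1)) := by
          obtain ⟨a, ha⟩ := hms
          have h1 : s ^ (m - 1) = (m : ℤ) * (a * s ^ (m - 1 - 1)) := by
            have : s ^ (m - 1) = s * s ^ (m - 1 - 1) := by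
              rw [← pow_succ']
              congr 1
              omega
            rw [this]
            nth_rewrite 1 [ha]
            ring
          refine ⟨a * s ^ (m - 1 - 1) + m, -1, ?_⟩
          rw [h1]
          ring
        have hc' : c ≤ c ^ m * m := by
          calc c = c ^ 1 * 1 := by ring
            _ ≤ c ^ m * m := Nat.mul_le_mul (Nat.pow_le_pow_right hc0 hm.pos) hm.pos
        have ht0 : t ≠ 0 := by
          rintro rfl
          rw [mul_zero] at hfac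
          rcases mul_eq_zero.1 hfac.symm with h1 | h1
          · exact hs h1
          · rw [h1] at hcop
            have h2 := isCoprime_zero_right.1 hcop
            have h3 : (m : ℤ).natAbs = 1 := Int.isUnit_iff_natAbs_eq.1 h2
            simp only [Int.natAbs_natCast] at h3
            exact hm.one_lt.ne' h3
        have h1 := ih t _ hvt (hc.trans hc') ht0 (hc0.trans_le hc')
        have h2 : (m : ℤ) ^ (n + 1) ∣ s * (s ^ (m - 1) + ((m : ℤ) ^ 2 - 1)) := by
          rw [← hfac, pow_succ']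
          exact mul_dvd_mul_left _ h1
        exact (hcop.pow_left).dvd_of_dvd_mul_right h2
    set s := altSum ℓ M ψ ^ (N + 1) with hs
    have h1 := hpow s.natAbs s _ hv1 hbig hne1 (by positivity)
    have h2 := Int.natAbs_dvd_natAbs.2 h1
    rw [Int.natAbs_pow, Int.natAbs_natCast] at h2
    have h3 := Nat.le_of_dvd (Int.natAbs_pos.2 hne1) h2
    exact absurd (Nat.lt_pow_self hm.one_lt) (not_lt.2 h3)
  tfae_have 3 → 1 := by
    intro h G _ _ χ hχ
    by_contra hne0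
    obtain ⟨ψ, hψ, hψχ⟩ := hχ.exists_strong
    rw [← hψχ] at hne0
    have hv0 : Val ℓ M (altSum ℓ M ψ) (Nat.card G) := ⟨G, inferInstance, inferInstance, ψ, hψ,
      rfl, rfl⟩
    -- a value at least two
    have hsq : Val ℓ M (altSum ℓ M ψ ^ 2) (Nat.card G ^ 2) := hv0.pow 1
    have hsq1 : 1 ≤ altSum ℓ M ψ ^ 2 := by
      have : 0 < altSum ℓ M ψ ^ 2 := by positivity
      omega
    obtain ⟨t, ht, hvt⟩ := hsq.wr hℓ m hm hne
    have ht2 : 2 ≤ t := by
      have h1 : (1 : ℤ) ≤ (altSum ℓ M ψ ^ 2) ^ m := one_le_pow₀ hsq1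
      have h2 : (4 : ℤ) ≤ (m : ℤ) ^ 2 := by
        have : (2 : ℤ) ≤ m := by exact_mod_cast hm.two_le
        nlinarith
      have h3 : (m : ℤ) ^ 2 ≤ (m : ℤ) * t := by
        rw [ht]
        nlinarith
      have h4 : (0 : ℤ) < m := by exact_mod_cast hm.pos
      have h5 : (m : ℤ) ≤ t := by
        rw [sq] at h3
        exact le_of_mul_le_mul_left h3 h4
      have h6 : (2 : ℤ) ≤ m := by exact_mod_cast hm.two_le
      omega
    generalize (Nat.card G ^ 2) ^ m * m = c at hvt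
    have hc2 := hvt.pos (by omega)
    -- choose the exponent
    have hcR : (1 : ℝ) < c := by exact_mod_cast hc2
    have hlogc : 0 < Real.log c := Real.log_pos hcR
    have hlog2 : 0 < Real.log 2 := Real.log_pos (by norm_num)
    obtain ⟨N, hN⟩ := h (Real.log 2 / (2 * Real.log c)) (by positivity)
    have hvn := hvt.pow N
    obtain ⟨H, _, _, ϑ, hϑ, hϑs, hϑc⟩ := hvn
    have hbig : N ≤ Nat.card H := by
      rw [hϑc]
      exact (Nat.lt_pow_self (by omega : 1 < c)).le.trans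
        (Nat.pow_le_pow_right (by omega) (Nat.le_succ N))
    have h1 := hN H ϑ hϑ.coreFree hbig
    rw [hϑs, hϑc] at h1
    have h2 : ((2 : ℝ)) ^ (N + 1) ≤ ((t ^ (N + 1) : ℤ) : ℝ) := by
      push_cast
      have : (2 : ℝ) ≤ t := by exact_mod_cast ht2
      exact pow_le_pow_left₀ (by norm_num) this _
    have h3 : (((c ^ (N + 1) : ℕ) : ℝ)) ^ (Real.log 2 / (2 * Real.log c)) =
        Real.exp ((N + 1 : ℕ) * (Real.log 2 / 2)) := by
      push_cast
      rw [Real.rpow_def_of_pos (by positivity), Real.log_pow]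
      congr 1
      push_cast
      field_simp
    have h4 : ((2 : ℝ)) ^ (N + 1) = Real.exp ((N + 1 : ℕ) * Real.log 2) := by
      rw [mul_comm, Real.exp_mul, Real.exp_log (by norm_num), Real.rpow_natCast]
    have h5 := h2.trans h1
    rw [h3, h4, Real.exp_le_exp] at h5
    have h6 : (0 : ℝ) < ((N + 1 : ℕ) : ℝ) := by positivity
    nlinarith
  tfae_finish

end Pool.Agent.Helper98_CC.Div
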