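import Pool.Agent.Helper90_CC.Main
import Pool.Agent.Helper13_CC.Frob
import Pool.Agent.Helper11_CC.Gen
import Pool.Agent.Helper26_CC.Grd
import Pool.Agent.Helper65_CC.Ind
import Pool.Agent.Helper97_CC.Lab
import Pool.Agent.Helper87_CC.Dz1
import Pool.Agent.Helper51_CC.Contr
import Pool.Agent.Helper51_CC.Boxp
import Pool.Agent.Helper29_CC.Boxt
import Pool.Agent.Helper55_CC.Off
import Pool.Agent.Helper55_CC.Step
import Pool.Agent.Helper33_CC.Gooda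
import Pool.Agent.Helper81_CC.Eqb
import Pool.Agent.Helper81_CC.Wcl
import Pool.Agent.Helper17_CC.Goodb
import Pool.Agent.Helper79_WRA.Final
import Pool.Agent.Helper98_CC.Div

/-!
CC: the assembly.
-/

open scoped BigOperators

noncomputable section

namespace Pool.Agent.Helper98_CC

open Pool.Agent.Helper51_AWC Pool.Agent.Helper79_WRA Pool.Agent.Helper90_CC

theorem grdAll : GredStmt := Helper26_CC.grd (Helper11_CC.genus Helper13_CC.frob)
theorem labAll : LabIdStmt := Helper97_CC.lab Helper13_CC.frob labelAll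
theorem wclAll : WclStmt :=
  H81.wcl Helper51_CC.boxp Helper29_CC.boxt (Helper33_CC.gooda H55.off)
    (Helper17_CC.goodb extAll labelAll H81.eqb)

theorem mainAll : MainStmt :=
  main_ grdAll Helper65_CC.ind labAll Helper87_CC.dz1 Helper51_CC.con wclAll H55.step dzuAll

section

variable {ℓ : ℕ} [hp : Fact ℓ.Prime] {M : Ideal (integralClosure ℤ ℂ)} [hM : M.IsMaximal]
  (hℓ : (ℓ : integralClosure ℤ ℂ) ∈ M)

include hℓ in
/-- the congruences for one group give the divisibility of the sums by `ℓ` -/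
theorem dvd_of_cong {G : Type} [Group G] [Finite G] (hop : opCore ℓ G = ⊥) {g : ℕ} (hg : 1 < g)
    (hdvd : ℓ - 1 ∣ 2 * g - 2)
    (hC : ∀ c : G, ((ℓ * cz c : ℕ) : ℤ) ∣ torusSum ℓ c - (commg g c : ℤ)) {χ : G → ℂ}
    (hχ : χ ∈ Irr G) (hL : LargeDefect ℓ M χ) : (ℓ : ℤ) ∣ altSum ℓ M χ := by
  have hgrd := grdAll
  have hlab := labAll
  have hdzu := dzuAll
  have hind := Helper65_CC.ind
  have hz : ∀ c : G, ∑ᶠ (β : G → FF M) (_ : β ∈ Labs M G),
      ((SS ℓ M G β - ee ℓ M G β : ℤ) : FF M) * β c = 0 := by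
    intro c
    obtain ⟨n, hn, hn'⟩ := diff_eq hℓ hop hgrd hlab hdzu hg hdvd c
    rw [← hn', intCast_FF hℓ]
    obtain ⟨k, hk⟩ := hC c
    have hcz : (cz c : ℤ) ≠ 0 := by
      unfold cz
      exact_mod_cast Nat.card_pos.ne'
    refine ⟨k, ?_⟩
    have h2 : (cz c : ℤ) * n = (cz c : ℤ) * ((ℓ : ℤ) * k) := by
      rw [← hn, hk]
      push_cast
      ring
    exact mul_left_cancel₀ hcz h2
  have h3 := hind M G (fun β => ((SS ℓ M G β - ee ℓ M G β : ℤ) : FF M)) hz (labF M χ)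
    ⟨χ, hχ, rfl⟩
  rw [intCast_FF hℓ, SS_labF M hop hχ, ee_pos hℓ hop hdzu hχ hL, sub_zero] at h3
  exact h3

include hℓ in
/-- the descent: if all the sums are divisible by `ℓ` then they vanish -/
theorem descent
    (h1 : ∀ (G : Type) [Group G] [Finite G], opCore ℓ G = ⊥ → ∀ χ ∈ Irr G,
        LargeDefect ℓ M χ → (ℓ : ℤ) ∣ altSum ℓ M χ) :
    ∀ (G : Type) [Group G] [Finite G], opCore ℓ G = ⊥ → ∀ χ ∈ Irr G,
        LargeDefect ℓ M χ → altSum ℓ M χ = 0 := by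
  have hstep := H55.step
  have hwcl := wclAll
  -- descent
  have h2 : ∀ v : ℕ, 1 ≤ v → ∀ (G : Type) [Group G] [Finite G], opCore ℓ G = ⊥ →
      ∀ χ ∈ Irr G, LargeDefect ℓ M χ → (ℓ : ℤ) ^ v ∣ altSum ℓ M χ := by
    intro v hv
    induction v, hv using Nat.le_induction with
    | base =>
      intro G _ _ hop χ hχ hL
      rw [pow_one]
      exact h1 G hop χ hχ hL
    | succ v hv ih =>
      intro G _ _ hop χ hχ hL
      obtain ⟨⟨s', hs', hs'2⟩, χ', hO, hL', hop'⟩ := hstep ℓ M hℓ G hop χ hχ hL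
      have hw := hwcl ℓ M hℓ G hop χ hχ hL χ' hO (altSum ℓ M χ) s' (asum_labF M hop hχ) hs'
      have hi := ih G hop χ hχ hL
      have hi' : (ℓ : ℤ) ^ v ∣ s' := by
        rcases hs'2 with h | ⟨χ₂, hχ₂, hL₂, h⟩
        · rw [h]
          exact dvd_zero _
        · rw [← h]
          exact ih G hop χ₂ hχ₂ hL₂
      have hi'' : (ℓ : ℤ) ^ v ∣ altSum ℓ M χ' := ih (Gam ℓ G) hop' χ' hO.1 hL'
      have hd1 : (ℓ : ℤ) ^ (v + 1) ∣ (ℓ : ℤ) * altSum ℓ M χ' := by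
        rw [pow_succ, mul_comm]
        exact mul_dvd_mul_left _ hi''
      have hd2 : (ℓ : ℤ) ^ (v + 1) ∣ (altSum ℓ M χ) ^ ℓ := by
        have h3 : ((ℓ : ℤ) ^ v) ^ ℓ ∣ (altSum ℓ M χ) ^ ℓ := pow_dvd_pow_of_dvd hi ℓ
        refine dvd_trans ?_ h3
        rw [← pow_mul]
        apply pow_dvd_pow
        have := hp.out.two_le
        nlinarith
      have hd3 : (ℓ : ℤ) ^ (v + 1) ∣ (ℓ : ℤ) ^ 2 * s' := by
        have h3 : (ℓ : ℤ) ^ (v + 1) = (ℓ : ℤ) * (ℓ : ℤ) ^ v := by ring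
        rw [h3, pow_two, mul_assoc]
        exact mul_dvd_mul_left _ (hi'.mul_left _)
      have hd4 : (ℓ : ℤ) ^ (v + 1) ∣ ((ℓ : ℤ) ^ 2 - 1) * altSum ℓ M χ := by
        have : ((ℓ : ℤ) ^ 2 - 1) * altSum ℓ M χ =
            (ℓ : ℤ) * altSum ℓ M χ' - (altSum ℓ M χ) ^ ℓ + (ℓ : ℤ) ^ 2 * s' := by
          rw [hw]
          ring
        rw [this]
        exact dvd_add (dvd_sub hd1 hd2) hd3
      have hcop : IsCoprime ((ℓ : ℤ) ^ (v + 1)) ((ℓ : ℤ) ^ 2 - 1) := by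
        apply IsCoprime.pow_left
        exact ⟨ℓ, -1, by ring⟩
      exact hcop.dvd_of_dvd_mul_left hd4
  intro G _ _ hop χ hχ hL
  by_contra hne
  have hlt := fun v : ℕ => h2 (v + 1) (by omega) G hop χ hχ hL
  obtain ⟨v, hv⟩ : ∃ v : ℕ, (altSum ℓ M χ).natAbs < ℓ ^ (v + 1) := by
    refine ⟨(altSum ℓ M χ).natAbs, ?_⟩
    have h3 : (altSum ℓ M χ).natAbs + 1 < ℓ ^ ((altSum ℓ M χ).natAbs + 1) :=
      Nat.lt_pow_self hp.out.one_lt
    omega
  have h4 : ℓ ^ (v + 1) ∣ (altSum ℓ M χ).natAbs := by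
    have := Int.natAbs_dvd_natAbs.mpr (hlt v)
    rwa [Int.natAbs_pow, Int.natAbs_natCast] at this
  have h5 := Nat.le_of_dvd (Int.natAbs_pos.mpr hne) h4
  omega

include hℓ in
/-- divisibility by `ℓ` for large groups is enough -/
theorem vanish_of_ell (h : ∃ N : ℕ, ∀ (G : Type) [Group G] [Finite G] (χ : G → ℂ),
    Div.CoreFree ℓ M G χ → N ≤ Nat.card G → (ℓ : ℤ) ∣ altSum ℓ M χ) :
    ∀ (G : Type) [Group G] [Finite G] (χ : G → ℂ), Div.CoreFree ℓ M G χ →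
      altSum ℓ M χ = 0 := by
  obtain ⟨N, h⟩ := h
  have hprime : Prime (ℓ : ℤ) := Nat.prime_iff_prime_int.mp hp.out
  intro G _ _ χ hχ
  refine descent hℓ ?_ G hχ.1 χ hχ.2.1 hχ.2.2
  clear hχ
  clear χ
  intro H _ _ hop χ hirr hL
  have hχ : Div.CoreFree ℓ M H χ := ⟨hop, hirr, hL⟩
  by_cases h0 : altSum ℓ M χ = 0
  · rw [h0]; exact dvd_zero _
  obtain ⟨ψ, hψ, hψχ⟩ := hχ.exists_strong
  have hv0 : Div.Val ℓ M (altSum ℓ M χ) (Nat.card H) :=
    ⟨H, inferInstance, inferInstance, ψ, hψ, hψχ, rfl⟩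
  have hc2 := hv0.pos h0
  obtain ⟨K, _, _, ϑ, hϑ, hϑs, hϑc⟩ := hv0.pow N
  have hbig : N ≤ Nat.card K := by
    rw [hϑc]
    exact (Nat.lt_pow_self (by omega : 1 < Nat.card H)).le.trans
      (Nat.pow_le_pow_right (by omega) (Nat.le_succ N))
  have h3 := h K ϑ hϑ.coreFree hbig
  rw [hϑs] at h3
  exact hprime.dvd_of_dvd_pow h3

end

end Pool.Agent.Helper98_CC
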